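import Pool.Agent.Helper86.AP.Goals

/-!
# AP packet GENB (helper3)

The words with an admissible dictionary have finite weight.
-/

set_option autoImplicit false

namespace Pool.Agent.Helper3.AP

open FreeGroup Pool.Agent.Helper35.PP Pool.Agent.Helper35.PX Pool.Agent.Helper86.AP
open scoped ENNReal

variable {α : Type}

/-- weight of a record. -/
noncomputable def wr (Z : ℝ≥0∞) (r : Rec α) : ℝ≥0∞ :=
  Z ^ (1 + r.2.1 + r.2.2.1 + r.2.2.2.length)

open Classical in
/-- The weight of the records with a condition on the two lengths. -/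
lemma tsum_rec_le (Z : ℝ≥0∞) (T : Set (List (α × Bool))) (P : ℕ → ℕ → Prop)
    (U : Set (Rec α)) (hU : ∀ r ∈ U, P r.2.1 r.2.2.1 ∧ r.2.2.2 ∈ T) :
    ∑' r : U, wr Z (r : Rec α) ≤
      2 * Z * W Z T * ∑' a : ℕ, ∑' d : ℕ, if P a d then Z ^ a * Z ^ d else 0 := by
  have h1 : ∑' r : U, wr Z (r : Rec α) ≤
      ∑' r : Rec α, (if P r.2.1 r.2.2.1 then Z ^ r.2.1 * Z ^ r.2.2.1 else 0) *
        (Z * T.indicator (fun w => Z ^ w.length) r.2.2.2) := by
    rw [tsum_subtype U (fun r => wr Z r)]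
    apply ENNReal.tsum_le_tsum
    intro r
    by_cases hr : r ∈ U
    · obtain ⟨h1, h2⟩ := hU r hr
      rw [Set.indicator_of_mem hr, if_pos h1, Set.indicator_of_mem h2]
      unfold wr
      rw [pow_add, pow_add, pow_add, pow_one]
      apply le_of_eq
      ring
    · rw [Set.indicator_of_notMem hr]
      exact zero_le
  refine h1.trans (le_of_eq ?_)
  have hW : W Z T = ∑' v : List (α × Bool), T.indicator (fun w => Z ^ w.length) v := by
    unfold W
    exact tsum_subtype T (fun w => Z ^ w.length)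
  rw [ENNReal.tsum_prod (f := fun (b : Bool) (r : ℕ × ℕ × List (α × Bool)) =>
    (if P r.1 r.2.1 then Z ^ r.1 * Z ^ r.2.1 else 0) *
        (Z * T.indicator (fun w => Z ^ w.length) r.2.2))]
  have h2 : ∑' r : ℕ × ℕ × List (α × Bool), (if P r.1 r.2.1 then Z ^ r.1 * Z ^ r.2.1 else 0) *
        (Z * T.indicator (fun w => Z ^ w.length) r.2.2) =
      Z * W Z T * ∑' a : ℕ, ∑' d : ℕ, if P a d then Z ^ a * Z ^ d else 0 := by
    rw [ENNReal.tsum_prod (f := fun (a : ℕ) (r : ℕ × List (α × Bool)) =>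
      (if P a r.1 then Z ^ a * Z ^ r.1 else 0) *
        (Z * T.indicator (fun w => Z ^ w.length) r.2))]
    rw [← ENNReal.tsum_mul_left]
    congr 1
    ext a
    rw [ENNReal.tsum_prod (f := fun (d : ℕ) (v : List (α × Bool)) =>
      (if P a d then Z ^ a * Z ^ d else 0) *
        (Z * T.indicator (fun w => Z ^ w.length) v))]
    rw [← ENNReal.tsum_mul_left]
    congr 1
    ext d
    rw [ENNReal.tsum_mul_left, ENNReal.tsum_mul_left, ← hW]
    ring
  rw [h2]
  rw [tsum_fintype]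
  simp only [Finset.sum_const, Finset.card_univ, Fintype.card_bool, nsmul_eq_mul, Nat.cast_ofNat]
  ring

/-- the factor of a mark. -/
noncomputable def fac (Z R : ℝ≥0∞) : Option ℕ → ℝ≥0∞
  | none => 1
  | some a => R * Z ^ a

open Classical in
/-- weight of the nonzero pairs. -/
noncomputable def s2 (Z : ℝ≥0∞) : ℝ≥0∞ :=
  ∑' a : ℕ, ∑' d : ℕ, if 0 < a + d then Z ^ a * Z ^ d else 0

/-- geometric series. -/
noncomputable def sg (Z : ℝ≥0∞) : ℝ≥0∞ := ∑' a : ℕ, Z ^ a

lemma one_le_sg (Z : ℝ≥0∞) : 1 ≤ sg Z := by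
  have := ENNReal.le_tsum (f := fun a : ℕ => Z ^ a) 0
  simpa [sg] using this

open Classical in
/-- The bound at one place. -/
lemma pos_bound (Z ρ R : ℝ≥0∞) (T : Set (List (α × Bool))) (hR : 1 ≤ R)
    (h1 : 2 * Z * W Z T * s2 Z ≤ ρ) (h2 : 2 * Z * W Z T * (sg Z * sg Z) ≤ ρ * R)
    (U : Set (Rec α)) (ma md : Option ℕ)
    (hU : ∀ r ∈ U, (0 < r.2.1 + r.2.2.1 ∧ (∀ a, ma = some a → r.2.1 = a) ∧
      (∀ d, md = some d → r.2.2.1 = d)) ∧ r.2.2.2 ∈ T) :
    ∑' r : U, wr Z (r : Rec α) ≤ ρ * (fac Z R ma * fac Z R md) := by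
  refine (tsum_rec_le Z T (fun x y => 0 < x + y ∧ (∀ a, ma = some a → x = a) ∧
      (∀ d, md = some d → y = d)) U hU).trans ?_
  have hs1 := one_le_sg Z
  have key : ∀ m : Option ℕ, ∑' x : ℕ, (if ∀ a, m = some a → x = a then Z ^ x else 0) ≤
      sg Z * (match m with | none => 1 | some a => Z ^ a) := by
    intro m
    cases m with
    | none => simp [sg]
    | some a =>
      rw [tsum_eq_single a]
      · simp only [Option.some.injEq, forall_eq', if_true]
        calc Z ^ a = 1 * Z ^ a := (one_mul _).symm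
          _ ≤ sg Z * Z ^ a := by gcongr
      · intro b hb
        rw [if_neg]
        intro h
        exact hb (h a rfl)
  have hprod : ∀ (ma md : Option ℕ) (P : ℕ → ℕ → Prop), (∀ x y, P x y →
      (∀ a, ma = some a → x = a) ∧ (∀ d, md = some d → y = d)) →
      ∑' x : ℕ, ∑' y : ℕ, (if P x y then Z ^ x * Z ^ y else 0) ≤
      (∑' x : ℕ, (if ∀ a, ma = some a → x = a then Z ^ x else 0)) *
        (∑' y : ℕ, (if ∀ a, md = some a → y = a then Z ^ y else 0)) := by
    intro ma md P hP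
    rw [← ENNReal.tsum_mul_right]
    apply ENNReal.tsum_le_tsum
    intro x
    rw [← ENNReal.tsum_mul_left]
    apply ENNReal.tsum_le_tsum
    intro y
    by_cases k1 : P x y
    · obtain ⟨k2, k3⟩ := hP x y k1
      rw [if_pos k1, if_pos k2, if_pos k3]
    · rw [if_neg k1]
      exact zero_le
  -- cases
  have big : ∀ (x y : ℝ≥0∞), 2 * Z * W Z T * ((sg Z * x) * (sg Z * y)) ≤ ρ * R * (x * y) := by
    intro x y
    calc 2 * Z * W Z T * ((sg Z * x) * (sg Z * y)) = 2 * Z * W Z T * (sg Z * sg Z) * (x * y) := by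
          ring
      _ ≤ ρ * R * (x * y) := by gcongr
  rcases ma with _ | a <;> rcases md with _ | d
  · refine le_trans (le_of_eq ?_) (h1.trans (le_of_eq ?_))
    · simp [s2]
    · simp [fac]
  · calc _ ≤ 2 * Z * W Z T * ((sg Z * 1) * (sg Z * Z ^ d)) := by
          gcongr
          exact (hprod none (some d) _ (fun x y h => h.2)).trans
            (mul_le_mul' (key none) (key (some d)))
      _ ≤ ρ * R * (1 * Z ^ d) := big _ _
      _ = ρ * (fac Z R none * fac Z R (some d)) := by simp only [fac]; ring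
  · calc _ ≤ 2 * Z * W Z T * ((sg Z * Z ^ a) * (sg Z * 1)) := by
          gcongr
          exact (hprod (some a) none _ (fun x y h => h.2)).trans
            (mul_le_mul' (key (some a)) (key none))
      _ ≤ ρ * R * (Z ^ a * 1) := big _ _
      _ = ρ * (fac Z R (some a) * fac Z R none) := by simp only [fac]; ring
  · calc _ ≤ 2 * Z * W Z T * ((sg Z * Z ^ a) * (sg Z * Z ^ d)) := by
          gcongr
          exact (hprod (some a) (some d) _ (fun x y h => h.2)).trans
            (mul_le_mul' (key (some a)) (key (some d)))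
      _ ≤ ρ * R * (Z ^ a * Z ^ d) := big _ _
      _ = ρ * (R * Z ^ a * (1 * Z ^ d)) := by ring
      _ ≤ ρ * (R * Z ^ a * (R * Z ^ d)) := by gcongr
      _ = ρ * (fac Z R (some a) * fac Z R (some d)) := by simp only [fac]

/-- The mark at a place. -/
def mk1 {n : ℕ} (x y : ℕ) (j0 : Fin n) (j1 : Option (Fin n)) (k : Fin n) : Option ℕ :=
  if k = j0 then some x else if j1 = some k then some y else none

lemma prod_fac {n : ℕ} (Z R : ℝ≥0∞) (hR : 1 ≤ R) (x y : ℕ) (j0 : Fin n) (j1 : Option (Fin n))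
    (hv : j1 ≠ some j0) (hy : j1 = none → y = 0) :
    ∏ k, fac Z R (mk1 x y j0 j1 k) ≤ R ^ 2 * Z ^ (x + y) := by
  have h1 : ∀ k, fac Z R (mk1 x y j0 j1 k) =
      (if k = j0 then R * Z ^ x else 1) * (if j1 = some k then R * Z ^ y else 1) := by
    intro k
    unfold mk1
    by_cases h : k = j0
    · subst h
      rw [if_pos rfl, if_pos rfl, if_neg hv]
      simp [fac]
    · rw [if_neg h, if_neg h]
      split_ifs <;> simp [fac]
  rw [Finset.prod_congr rfl (fun k _ => h1 k), Finset.prod_mul_distrib]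
  have h2 : ∏ k : Fin n, (if k = j0 then R * Z ^ x else 1) = R * Z ^ x := by
    rw [Finset.prod_ite_eq' Finset.univ j0 (fun _ => R * Z ^ x)]
    simp
  have h3 : ∏ k : Fin n, (if j1 = some k then R * Z ^ y else 1) ≤ R * Z ^ y := by
    cases j1 with
    | none =>
      rw [hy rfl]
      simpa using hR
    | some k1 =>
      have : ∀ k : Fin n, (if some k1 = some k then R * Z ^ y else (1 : ℝ≥0∞)) =
          if k1 = k then R * Z ^ y else 1 := by
        intro k; simp
      rw [Finset.prod_congr rfl (fun k _ => this k),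
        Finset.prod_ite_eq Finset.univ k1 (fun _ => R * Z ^ y)]
      simp
  rw [h2]
  calc R * Z ^ x * ∏ k : Fin n, (if j1 = some k then R * Z ^ y else 1)
      ≤ R * Z ^ x * (R * Z ^ y) := by gcongr
    _ = R ^ 2 * Z ^ (x + y) := by rw [pow_add]; ring

lemma exists_mark {f : Rec α → ℕ} {L : List (Rec α)} {x y : ℕ} (h : Mark f L x y) :
    ∃ (j0 : Fin L.length) (j1 : Option (Fin L.length)), j1 ≠ some j0 ∧ (j1 = none → y = 0) ∧
      ∀ k a, mk1 x y j0 j1 k = some a → f (L.get k) = a := by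
  obtain ⟨j0, h0, h1⟩ := h
  rcases h1 with h1 | ⟨j1, h2, h3⟩
  · refine ⟨j0, none, by simp, fun _ => h1, ?_⟩
    intro k a hk
    unfold mk1 at hk
    by_cases c1 : k = j0
    · rw [if_pos c1] at hk
      subst c1
      simp only [Option.some.injEq] at hk
      rw [h0, hk]
    · rw [if_neg c1] at hk
      simp at hk
  · refine ⟨j0, some j1, by simpa using h2, by simp, ?_⟩
    intro k a hk
    unfold mk1 at hk
    split_ifs at hk with c1 c2
    · subst c1
      simp only [Option.some.injEq] at hk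
      rw [h0, hk]
    · simp only [Option.some.injEq] at hk c2
      subst c2
      rw [h3, hk]

/-- The words with a fixed dictionary. -/
def FFt (i : α) (T : Set (List (α × Bool))) (A p D q : List (α × Bool)) :
    Set (List (α × Bool)) :=
  {c | ∃ (e : Rec α) (l : List (Rec α)),
    (∀ r ∈ e :: l, 0 < r.2.1 + r.2.2.1 ∧ r.2.1 ≤ A.length ∧ r.2.2.1 ≤ D.length ∧ r.2.2.2 ∈ T) ∧
    Mark (fun r => r.2.1) (e :: l) A.length p.length ∧
    Mark (fun r => r.2.2.1) (e :: l) D.length q.length ∧ c = cyc i A D e l}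

/-- The prescribed sets. -/
def UU (T : Set (List (α × Bool))) (A D : List (α × Bool)) (ma md : Option ℕ) : Set (Rec α) :=
  {r | (0 < r.2.1 + r.2.2.1 ∧ (∀ a, ma = some a → r.2.1 = a) ∧
      (∀ d, md = some d → r.2.2.1 = d)) ∧ r.2.2.2 ∈ T ∧ r.2.1 ≤ A.length ∧ r.2.2.1 ≤ D.length}

/-- the index type of the cover. -/
abbrev Idx : Type := Σ n : ℕ, (Fin n × Option (Fin n)) × (Fin n × Option (Fin n))

lemma FFt_bound [DecidableEq α] (hGA : S_GENA) (i : α) (T : Set (List (α × Bool)))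
    (A p D q : List (α × Bool)) (Z ρ R : ℝ≥0∞) (hR : 1 ≤ R)
    (h1 : 2 * Z * W Z T * s2 Z ≤ ρ) (h2 : 2 * Z * W Z T * (sg Z * sg Z) ≤ ρ * R) :
    W Z (FFt i T A p D q) ≤ (∑' n : ℕ, (4 * (n : ℝ≥0∞) ^ 4) * ρ ^ n) * R ^ 4 *
      Z ^ (A.length + p.length + D.length + q.length) := by
  classical
  -- the cover
  let S : Idx → Set (List (α × Bool)) := fun x =>
    {c | (x.2.1.2 ≠ some x.2.1.1 ∧ (x.2.1.2 = none → p.length = 0)) ∧
      (x.2.2.2 ≠ some x.2.2.1 ∧ (x.2.2.2 = none → q.length = 0)) ∧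
      c ∈ {c | ∃ (e : Rec α) (l : List (Rec α)),
        List.Forall₂ (fun r U => r ∈ U) (e :: l) (List.ofFn fun k : Fin x.1 =>
          UU T A D (mk1 A.length p.length x.2.1.1 x.2.1.2 k)
            (mk1 D.length q.length x.2.2.1 x.2.2.2 k)) ∧ c = cyc i A D e l}}
  have hcov : FFt i T A p D q ⊆ ⋃ x, S x := by
    rintro c ⟨e, l, hr, hm, hm', rfl⟩
    obtain ⟨j0, j1, k1, k2, k3⟩ := exists_mark hm
    obtain ⟨j0', j1', k1', k2', k3'⟩ := exists_mark hm'
    rw [Set.mem_iUnion]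
    refine ⟨⟨(e :: l).length, (j0, j1), (j0', j1')⟩, ⟨k1, k2⟩, ⟨k1', k2'⟩, e, l, ?_, rfl⟩
    rw [List.forall₂_iff_get]
    refine ⟨by simp, ?_⟩
    intro n hn hn'
    rw [List.get_ofFn]
    have hmem := hr _ (List.get_mem (e :: l) ⟨n, hn⟩)
    refine ⟨⟨hmem.1, ?_, ?_⟩, hmem.2.2.2, hmem.2.1, hmem.2.2.1⟩
    · intro a ha
      exact k3 _ a ha
    · intro a ha
      exact k3' _ a ha
  have hb : ∀ x : Idx, W Z (S x) ≤ ρ ^ x.1 * (R ^ 4 *
      Z ^ (A.length + p.length + D.length + q.length)) := by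
    intro x
    by_cases hv : (x.2.1.2 ≠ some x.2.1.1 ∧ (x.2.1.2 = none → p.length = 0)) ∧
      (x.2.2.2 ≠ some x.2.2.1 ∧ (x.2.2.2 = none → q.length = 0))
    · have hsub : S x ⊆ {c | ∃ (e : Rec α) (l : List (Rec α)),
        List.Forall₂ (fun r U => r ∈ U) (e :: l) (List.ofFn fun k : Fin x.1 =>
          UU T A D (mk1 A.length p.length x.2.1.1 x.2.1.2 k)
            (mk1 D.length q.length x.2.2.1 x.2.2.2 k)) ∧ c = cyc i A D e l} := by
        intro c hc
        exact hc.2.2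
      refine (W_mono hsub).trans ?_
      refine (hGA α i A D Z _ ?_).trans ?_
      · intro U hU r hr
        rw [List.mem_ofFn] at hU
        obtain ⟨k, rfl⟩ := hU
        exact hr.2.2
      · rw [List.map_ofFn, List.prod_ofFn]
        calc ∏ k : Fin x.1, ((fun (U : Set (Rec α)) => ∑' r : U,
                Z ^ (1 + (r : Rec α).2.1 + (r : Rec α).2.2.1 + (r : Rec α).2.2.2.length)) ∘
                fun k : Fin x.1 => UU T A D (mk1 A.length p.length x.2.1.1 x.2.1.2 k)
            (mk1 D.length q.length x.2.2.1 x.2.2.2 k)) k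
            ≤ ∏ k : Fin x.1, (ρ * (fac Z R (mk1 A.length p.length x.2.1.1 x.2.1.2 k) *
                fac Z R (mk1 D.length q.length x.2.2.1 x.2.2.2 k))) := by
              apply Finset.prod_le_prod'
              intro k _
              exact pos_bound Z ρ R T hR h1 h2 _ _ _ (fun r hr => ⟨hr.1, hr.2.1⟩)
          _ = ρ ^ x.1 * ((∏ k : Fin x.1, fac Z R (mk1 A.length p.length x.2.1.1 x.2.1.2 k)) *
                ∏ k : Fin x.1, fac Z R (mk1 D.length q.length x.2.2.1 x.2.2.2 k)) := by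
              rw [Finset.prod_mul_distrib, Finset.prod_mul_distrib]
              simp
          _ ≤ ρ ^ x.1 * ((R ^ 2 * Z ^ (A.length + p.length)) *
                (R ^ 2 * Z ^ (D.length + q.length))) := by
              gcongr
              · exact prod_fac Z R hR _ _ _ _ hv.1.1 hv.1.2
              · exact prod_fac Z R hR _ _ _ _ hv.2.1 hv.2.2
          _ = ρ ^ x.1 * (R ^ 4 * Z ^ (A.length + p.length + D.length + q.length)) := by
              rw [pow_add, pow_add, pow_add Z (A.length + p.length + D.length),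
                pow_add Z (A.length + p.length), pow_add Z A.length]
              ring
    · have hemp : S x = ∅ := by
        apply Set.eq_empty_of_forall_notMem
        intro c hc
        exact hv ⟨hc.1, hc.2.1⟩
      rw [hemp, W_empty]
      exact zero_le
  calc W Z (FFt i T A p D q) ≤ W Z (⋃ x, S x) := W_mono hcov
    _ ≤ ∑' x : Idx, W Z (S x) := ENNReal.tsum_iUnion_le_tsum (fun w : List (α × Bool) => Z ^ w.length) S
    _ ≤ ∑' x : Idx, ρ ^ x.1 * (R ^ 4 * Z ^ (A.length + p.length + D.length + q.length)) :=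
        ENNReal.tsum_le_tsum hb
    _ = (∑' x : Idx, ρ ^ x.1) * (R ^ 4 * Z ^ (A.length + p.length + D.length + q.length)) := by
        rw [ENNReal.tsum_mul_right]
    _ ≤ (∑' n : ℕ, (4 * (n : ℝ≥0∞) ^ 4) * ρ ^ n) *
          (R ^ 4 * Z ^ (A.length + p.length + D.length + q.length)) := by
        gcongr
        rw [ENNReal.tsum_sigma' (fun x : Idx => ρ ^ x.1)]
        apply ENNReal.tsum_le_tsum
        intro n
        rw [tsum_fintype]
        simp only [Finset.sum_const, Finset.card_univ, Fintype.card_prod, Fintype.card_fin,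
          Fintype.card_option, nsmul_eq_mul]
        gcongr
        have : n * (n + 1) * (n * (n + 1)) ≤ 4 * n ^ 4 := by
          rcases Nat.eq_zero_or_pos n with h | h
          · subst h; simp
          · have h3 : n + 1 ≤ 2 * n := by omega
            calc n * (n + 1) * (n * (n + 1)) ≤ n * (2 * n) * (n * (2 * n)) := by gcongr
              _ = 4 * n ^ 4 := by ring
        exact_mod_cast this
    _ = _ := by ring

lemma s2_add_one (Z : ℝ≥0∞) : s2 Z + 1 = sg Z * sg Z := by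
  classical
  have h1 : sg Z * sg Z = ∑' a : ℕ, ∑' d : ℕ, Z ^ a * Z ^ d := by
    unfold sg
    rw [← ENNReal.tsum_mul_right]
    congr 1
    ext a
    rw [ENNReal.tsum_mul_left]
  have h2 : ∀ f : ℕ → ℕ → ℝ≥0∞, ∑' a : ℕ, ∑' d : ℕ, f a d = ∑' x : ℕ × ℕ, f x.1 x.2 := by
    intro f
    exact (ENNReal.tsum_prod (f := f)).symm
  rw [h1]
  unfold s2
  rw [h2, h2, ENNReal.tsum_eq_add_tsum_ite (f := fun x : ℕ × ℕ => Z ^ x.1 * Z ^ x.2) (0, 0)]
  rw [add_comm]
  congr 1
  · simp
  · congr 1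
    ext x
    by_cases hx : x = (0, 0)
    · rw [if_pos hx, if_neg]
      rw [hx]; simp
    · rw [if_neg hx, if_pos]
      by_contra hcon
      apply hx
      ext
      · show x.1 = 0; omega
      · show x.2 = 0; omega

lemma sg_ofReal {z : ℝ} (hz : 0 < z) (hz1 : z < 1) :
    sg (ENNReal.ofReal z) = ENNReal.ofReal ((1 - z)⁻¹) := by
  unfold sg
  rw [ENNReal.tsum_geometric, ENNReal.ofReal_inv_of_pos (by linarith), ENNReal.ofReal_sub _ hz.le,
    ENNReal.ofReal_one]

lemma s2_ofReal {z : ℝ} (hz : 0 < z) (hz1 : z < 1) :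
    s2 (ENNReal.ofReal z) = ENNReal.ofReal ((1 - z)⁻¹ * (1 - z)⁻¹ - 1) := by
  have h1 := s2_add_one (ENNReal.ofReal z)
  have h3 : 0 < 1 - z := by linarith
  have h4 : 1 ≤ (1 - z)⁻¹ := by
    rw [one_le_inv₀ h3]; linarith
  rw [sg_ofReal hz hz1, ← ENNReal.ofReal_mul (by positivity)] at h1
  have h2 : ENNReal.ofReal ((1 - z)⁻¹ * (1 - z)⁻¹) =
      ENNReal.ofReal ((1 - z)⁻¹ * (1 - z)⁻¹ - 1) + 1 := by
    rw [← ENNReal.ofReal_one, ← ENNReal.ofReal_add _ zero_le_one]
    · congr 1; ring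
    · nlinarith
  rw [h2] at h1
  exact (ENNReal.add_left_inj ENNReal.one_ne_top).mp h1

theorem tGENB : S_GENB := by
  intro hGA α _ _ i T M z ω hz hz1 hω hT hρ hWQ
  classical
  have h1z : 0 < 1 - z := by linarith
  have h2z : 0 < 2 - z := by linarith
  -- a positive weight
  set η : ℝ := (1 - z) ^ 2 / (4 * z ^ 2 * (2 - z)) with hη
  have hηpos : 0 < η := by positivity
  set ω' : ℝ := max ω η with hω'
  have hω'pos : 0 < ω' := lt_of_lt_of_le hηpos (le_max_right _ _)
  set c : ℝ := 2 * z ^ 2 * (2 - z) / (1 - z) ^ 2 with hc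
  have hcpos : 0 < c := by positivity
  have hcη : c * η = 1 / 2 := by
    rw [hc, hη]
    field_simp
    ring
  set ρr : ℝ := c * ω' with hρr
  have hρ1 : ρr < 1 := by
    rw [hρr, hω']
    rcases max_cases ω η with h | h
    · rw [h.1]; exact hρ
    · rw [h.1, hcη]; norm_num
  have hρpos : 0 < ρr := by positivity
  set Rr : ℝ := 1 / (z * (2 - z)) with hRr
  have hRr1 : 1 ≤ Rr := by
    rw [hRr, le_div_iff₀ (by positivity)]
    nlinarith [sq_nonneg (1 - z)]
  set Z := ENNReal.ofReal z with hZ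
  have hT' : W Z T ≤ ENNReal.ofReal ω' := hT.trans (ENNReal.ofReal_le_ofReal (le_max_left _ _))
  have hR : (1 : ℝ≥0∞) ≤ ENNReal.ofReal Rr := by
    rw [← ENNReal.ofReal_one]
    exact ENNReal.ofReal_le_ofReal hRr1
  have h2' : (2 : ℝ≥0∞) = ENNReal.ofReal 2 := by simp
  have h1 : 2 * Z * W Z T * s2 Z ≤ ENNReal.ofReal ρr := by
    have hs : 0 ≤ (1 - z)⁻¹ * (1 - z)⁻¹ - 1 := by
      have h4 : 1 ≤ (1 - z)⁻¹ := by
        rw [one_le_inv₀ h1z]; linarith
      nlinarith
    calc 2 * Z * W Z T * s2 Z ≤ ENNReal.ofReal 2 * ENNReal.ofReal z * ENNReal.ofReal ω' *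
          ENNReal.ofReal ((1 - z)⁻¹ * (1 - z)⁻¹ - 1) := by
          rw [← h2', ← s2_ofReal hz hz1]
          gcongr
      _ = ENNReal.ofReal (2 * z * ω' * ((1 - z)⁻¹ * (1 - z)⁻¹ - 1)) := by
          rw [ENNReal.ofReal_mul (by positivity : (0 : ℝ) ≤ 2 * z * ω'),
            ENNReal.ofReal_mul (by positivity : (0 : ℝ) ≤ 2 * z),
            ENNReal.ofReal_mul (by norm_num : (0 : ℝ) ≤ 2)]
      _ = ENNReal.ofReal ρr := by
          congr 1
          rw [hρr, hc]
          field_simp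
          ring
  have h2 : 2 * Z * W Z T * (sg Z * sg Z) ≤ ENNReal.ofReal ρr * ENNReal.ofReal Rr := by
    calc 2 * Z * W Z T * (sg Z * sg Z) ≤ ENNReal.ofReal 2 * ENNReal.ofReal z *
          ENNReal.ofReal ω' * (ENNReal.ofReal ((1 - z)⁻¹) * ENNReal.ofReal ((1 - z)⁻¹)) := by
          rw [← h2', ← sg_ofReal hz hz1]
          gcongr
      _ = ENNReal.ofReal (2 * z * ω' * ((1 - z)⁻¹ * (1 - z)⁻¹)) := by
          rw [ENNReal.ofReal_mul (by positivity : (0 : ℝ) ≤ 2 * z * ω'),
            ENNReal.ofReal_mul (by positivity : (0 : ℝ) ≤ 2 * z),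
            ENNReal.ofReal_mul (by norm_num : (0 : ℝ) ≤ 2),
            ENNReal.ofReal_mul (by positivity : (0 : ℝ) ≤ (1 - z)⁻¹)]
      _ = ENNReal.ofReal ρr * ENNReal.ofReal Rr := by
          rw [← ENNReal.ofReal_mul hρpos.le]
          congr 1
          rw [hρr, hc, hRr]
          field_simp
  -- the cover by the quadruples
  have hcov : FF i T M ⊆ ⋃ t : ADMS i M, FFt i T t.1.1 t.1.2.1 t.1.2.2.1 t.1.2.2.2 := by
    rintro w ⟨A, p, D, q, hmem, e, l, k1, k2, k3, k4⟩
    rw [Set.mem_iUnion]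
    exact ⟨⟨(A, p, D, q), hmem⟩, e, l, k1, k2, k3, k4⟩
  have hsum : (∑' n : ℕ, (4 * (n : ℝ≥0∞) ^ 4) * (ENNReal.ofReal ρr) ^ n) < ⊤ := by
    have hsm : Summable (fun n : ℕ => 4 * (n : ℝ) ^ 4 * ρr ^ n) := by
      have := summable_pow_mul_geometric_of_norm_lt_one (R := ℝ) 4 (r := ρr)
        (by rw [Real.norm_eq_abs, abs_of_pos hρpos]; exact hρ1)
      have h5 := this.mul_left 4
      refine h5.congr ?_
      intro n; ring
    have h6 : ∀ n : ℕ, (4 * (n : ℝ≥0∞) ^ 4) * (ENNReal.ofReal ρr) ^ n =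
        ENNReal.ofReal (4 * (n : ℝ) ^ 4 * ρr ^ n) := by
      intro n
      rw [ENNReal.ofReal_mul (by positivity : (0 : ℝ) ≤ 4 * (n : ℝ) ^ 4),
        ENNReal.ofReal_mul (by norm_num : (0 : ℝ) ≤ 4),
        ENNReal.ofReal_pow (by positivity : (0 : ℝ) ≤ n), ENNReal.ofReal_pow hρpos.le,
        ENNReal.ofReal_natCast]
      simp
    rw [tsum_congr h6]
    rw [← ENNReal.ofReal_tsum_of_nonneg (fun n => by positivity) hsm]
    exact ENNReal.ofReal_lt_top
  calc W Z (FF i T M) ≤ W Z (⋃ t : ADMS i M, FFt i T t.1.1 t.1.2.1 t.1.2.2.1 t.1.2.2.2) :=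
        W_mono hcov
    _ ≤ ∑' t : ADMS i M, W Z (FFt i T t.1.1 t.1.2.1 t.1.2.2.1 t.1.2.2.2) :=
        ENNReal.tsum_iUnion_le_tsum (fun w : List (α × Bool) => Z ^ w.length) _
    _ ≤ ∑' t : ADMS i M, (∑' n : ℕ, (4 * (n : ℝ≥0∞) ^ 4) * (ENNReal.ofReal ρr) ^ n) *
          (ENNReal.ofReal Rr) ^ 4 *
          Z ^ (t.1.1.length + t.1.2.1.length + t.1.2.2.1.length + t.1.2.2.2.length) := by
        apply ENNReal.tsum_le_tsum
        intro t
        exact FFt_bound hGA i T _ _ _ _ Z _ _ hR h1 h2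
    _ = (∑' n : ℕ, (4 * (n : ℝ≥0∞) ^ 4) * (ENNReal.ofReal ρr) ^ n) *
          (ENNReal.ofReal Rr) ^ 4 * WQ Z (ADMS i M) := by
        rw [ENNReal.tsum_mul_left]
        rfl
    _ < ⊤ := by
        apply ENNReal.mul_lt_top
        · exact ENNReal.mul_lt_top hsum (ENNReal.pow_lt_top ENNReal.ofReal_lt_top)
        · exact hWQ

end Pool.Agent.Helper3.AP
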