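import Pool.Agent.Helper86.AP.Goals

/-!
# AP packet SUBM (helper3)

A factor closed language with finite weight at `z` has finite weight at a larger point.
-/

set_option autoImplicit false

namespace Pool.Agent.Helper3.AP

open FreeGroup Pool.Agent.Helper35.PP Pool.Agent.Helper35.PX Pool.Agent.Helper86.AP
open scoped ENNReal

/-- The words of length `n`. -/
abbrev Ly {β : Type} (S : Set (List β)) (n : ℕ) : Type := {w : S // w.1.length = n}

lemma ly_finite {β : Type} [Finite β] (S : Set (List β)) (n : ℕ) : Finite (Ly S n) := by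
  have h : Finite {w : List β | w.length = n} := (List.finite_length_eq β n).to_subtype
  exact Finite.of_injective
    (fun w : Ly S n => (⟨w.1.1, w.2⟩ : {w : List β | w.length = n})) (by
      intro a b hab
      simp only [Subtype.mk.injEq] at hab
      exact Subtype.ext (Subtype.ext hab))

lemma W_eq_tsum {β : Type} [Finite β] (S : Set (List β)) (Z : ℝ≥0∞) :
    W Z S = ∑' n : ℕ, (Nat.card (Ly S n) : ℝ≥0∞) * Z ^ n := by
  unfold W
  rw [← (Equiv.sigmaFiberEquiv (fun w : S => w.1.length)).tsum_eq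
    (fun w : S => Z ^ w.1.length), ENNReal.tsum_sigma']
  congr 1
  ext n
  have h1 : ∀ w : Ly S n, Z ^ (((Equiv.sigmaFiberEquiv (fun w : S => w.1.length)) ⟨n, w⟩ :
      S) : List β).length = Z ^ n := by
    intro w
    have : ((Equiv.sigmaFiberEquiv (fun w : S => w.1.length)) ⟨n, w⟩ : S) = w.1 := rfl
    rw [this, w.2]
  have h2 : Finite (Ly S n) := ly_finite S n
  rw [tsum_congr h1, ENNReal.tsum_const, ENat.card_eq_coe_natCard]
  simp

lemma ly_submul {β : Type} [Finite β] {S : Set (List β)} (hS : FactorClosed S) (n m : ℕ) :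
    Nat.card (Ly S (n + m)) ≤ Nat.card (Ly S n) * Nat.card (Ly S m) := by
  have h1 : Finite (Ly S n) := ly_finite S n
  have h2 : Finite (Ly S m) := ly_finite S m
  rw [← Nat.card_prod]
  have ht : ∀ w : Ly S (n + m), w.1.1.take n ∈ S := fun w =>
    hS [] (w.1.1.take n) (w.1.1.drop n) (by
      rw [List.nil_append, List.take_append_drop]; exact w.1.2)
  have hd : ∀ w : Ly S (n + m), w.1.1.drop n ∈ S := fun w =>
    hS (w.1.1.take n) (w.1.1.drop n) [] (by
      rw [List.append_nil, List.take_append_drop]; exact w.1.2)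
  apply Nat.card_le_card_of_injective (fun w : Ly S (n + m) =>
    ((⟨⟨w.1.1.take n, ht w⟩, by have := w.2; rw [List.length_take]; omega⟩,
      ⟨⟨w.1.1.drop n, hd w⟩, by have := w.2; rw [List.length_drop]; omega⟩) : Ly S n × Ly S m))
  intro a b hab
  simp only [Prod.mk.injEq, Subtype.mk.injEq] at hab
  apply Subtype.ext
  apply Subtype.ext
  rw [← List.take_append_drop n a.1.1, ← List.take_append_drop n b.1.1, hab.1, hab.2]

theorem tSUBM : S_SUBM := by
  intro β _ S z hz hS hW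
  rw [W_eq_tsum] at hW
  obtain ⟨k, hk1, hk⟩ : ∃ k : ℕ, 1 ≤ k ∧ (Nat.card (Ly S k) : ℝ) * z ^ k < 1 := by
    have h1 := ENNReal.tendsto_atTop_zero_of_tsum_ne_top hW.ne
    have h2 := (h1.eventually (gt_mem_nhds (zero_lt_one : (0 : ℝ≥0∞) < 1))).and
      (Filter.eventually_ge_atTop 1)
    obtain ⟨k, hk, hk1⟩ := h2.exists
    refine ⟨k, hk1, ?_⟩
    rw [← ENNReal.ofReal_natCast, ← ENNReal.ofReal_pow hz.le,
      ← ENNReal.ofReal_mul (by positivity), ← ENNReal.ofReal_one,
      ENNReal.ofReal_lt_ofReal_iff zero_lt_one] at hk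
    exact hk
  obtain ⟨z', hz', hzz⟩ : ∃ z' : ℝ, (Nat.card (Ly S k) : ℝ) * z' ^ k < 1 ∧ z < z' := by
    have hc : ContinuousAt (fun x : ℝ => (Nat.card (Ly S k) : ℝ) * x ^ k) z := by fun_prop
    have h1 := (hc.eventually (gt_mem_nhds hk)).filter_mono
      (nhdsWithin_le_nhds (s := Set.Ioi z))
    exact (h1.and self_mem_nhdsWithin).exists
  refine ⟨z', hzz, ?_⟩
  have hz'0 : 0 < z' := hz.trans hzz
  rw [W_eq_tsum]
  have hne : NeZero k := ⟨by omega⟩
  have hq : ∀ q r : ℕ, Nat.card (Ly S (q * k + r)) ≤ Nat.card (Ly S k) ^ q * Nat.card (Ly S r) := by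
    intro q r
    induction q with
    | zero => simp
    | succ q ih =>
      have e : (q + 1) * k + r = k + (q * k + r) := by ring
      rw [e]
      calc Nat.card (Ly S (k + (q * k + r))) ≤ Nat.card (Ly S k) * Nat.card (Ly S (q * k + r)) :=
            ly_submul hS _ _
        _ ≤ Nat.card (Ly S k) * (Nat.card (Ly S k) ^ q * Nat.card (Ly S r)) := by gcongr
        _ = Nat.card (Ly S k) ^ (q + 1) * Nat.card (Ly S r) := by ring
  set Z' := ENNReal.ofReal z' with hZ'
  set g : ℝ≥0∞ := (Nat.card (Ly S k) : ℝ≥0∞) * Z' ^ k with hg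
  have hg1 : g < 1 := by
    rw [hg, hZ', ← ENNReal.ofReal_natCast, ← ENNReal.ofReal_pow hz'0.le,
      ← ENNReal.ofReal_mul (by positivity), ← ENNReal.ofReal_one,
      ENNReal.ofReal_lt_ofReal_iff zero_lt_one]
    exact hz'
  rw [← (Nat.divModEquiv k).symm.tsum_eq]
  calc ∑' c : ℕ × Fin k, (Nat.card (Ly S ((Nat.divModEquiv k).symm c)) : ℝ≥0∞) *
        Z' ^ ((Nat.divModEquiv k).symm c)
      ≤ ∑' c : ℕ × Fin k, g ^ c.1 * ((Nat.card (Ly S c.2) : ℝ≥0∞) * Z' ^ (c.2 : ℕ)) := by
        apply ENNReal.tsum_le_tsum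
        rintro ⟨q, r⟩
        have e : (Nat.divModEquiv k).symm (q, r) = q * k + r := by
          simp [Nat.divModEquiv]
        rw [e]
        have h1 : (Nat.card (Ly S (q * k + r)) : ℝ≥0∞) ≤
            (Nat.card (Ly S k) : ℝ≥0∞) ^ q * (Nat.card (Ly S r) : ℝ≥0∞) := by
          exact_mod_cast hq q r
        calc (Nat.card (Ly S (q * k + r)) : ℝ≥0∞) * Z' ^ (q * k + (r : ℕ))
            ≤ ((Nat.card (Ly S k) : ℝ≥0∞) ^ q * (Nat.card (Ly S r) : ℝ≥0∞)) *
              Z' ^ (q * k + (r : ℕ)) := by gcongr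
          _ = g ^ q * ((Nat.card (Ly S r) : ℝ≥0∞) * Z' ^ (r : ℕ)) := by
              rw [hg, mul_pow, pow_add, ← pow_mul, mul_comm q k]
              ring
    _ = (∑' q : ℕ, g ^ q) * ∑' r : Fin k, ((Nat.card (Ly S r) : ℝ≥0∞) * Z' ^ (r : ℕ)) := by
        rw [ENNReal.tsum_prod (f := fun (q : ℕ) (r : Fin k) =>
          g ^ q * ((Nat.card (Ly S r) : ℝ≥0∞) * Z' ^ (r : ℕ))), ← ENNReal.tsum_mul_right]
        congr 1
        ext q
        rw [ENNReal.tsum_mul_left]
    _ < ⊤ := by
        apply ENNReal.mul_lt_top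
        · rw [ENNReal.tsum_geometric]
          rw [ENNReal.inv_lt_top]
          exact tsub_pos_of_lt hg1
        · rw [tsum_fintype]
          apply ENNReal.sum_lt_top.mpr
          intro r _
          exact ENNReal.mul_lt_top (ENNReal.natCast_lt_top _)
            (ENNReal.pow_lt_top ENNReal.ofReal_lt_top)

end Pool.Agent.Helper3.AP
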